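import Pool.Agent.R270.WeakNhd

/-!
# Almost preserved extreme points at zero in `ℓ₁`-sums

For every infinite index set `I` there are nonzero finite-dimensional Hilbert spaces `E i`
such that `0` is an almost preserved extreme point of the unit ball of the `ℓ₁`-sum, but `0` is not
an almost preserved extreme point of the unit ball of any `E i`.
-/

namespace Pool.Agent.Results.MP_c12391_an.ZeroAPEP

open Set Filter Topology
open scoped ENNReal

/-- The slice `S(C, f, α) = {x ∈ C : f(x) > sup f(C) - α}`. -/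
def slice {X : Type*} [NormedAddCommGroup X] [NormedSpace ℝ X] (C : Set X)
    (f : StrongDual ℝ X) (α : ℝ) : Set X :=
  {x | x ∈ C ∧ sSup (f '' C) - α < f x}

/-- `x₀` is an almost preserved extreme point of `C`: `x₀ ∈ C` and every relatively weakly open
subset `W` of `C` containing `x₀` contains a nonempty slice of `C`. -/
def IsAPEP {X : Type*} [NormedAddCommGroup X] [NormedSpace ℝ X] (C : Set X) (x₀ : X) : Prop :=
  x₀ ∈ C ∧ ∀ W : Set X, (∃ O : Set (WeakSpace ℝ X), IsOpen O ∧ W = C ∩ toWeakSpace ℝ X ⁻¹' O) →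
    x₀ ∈ W → ∃ (f : StrongDual ℝ X) (α : ℝ), 0 < α ∧ (slice C f α).Nonempty ∧ slice C f α ⊆ W

section finite

/-- Zero is not an almost preserved extreme point of the ball of a nonzero Euclidean space. -/
lemma not_isAPEP (n : ℕ) :
    ¬ IsAPEP (Metric.closedBall (0 : EuclideanSpace ℝ (Fin (n + 1))) 1) 0 := by
  rintro ⟨-, h⟩
  set V := EuclideanSpace ℝ (Fin (n + 1))
  let c : Fin (n + 1) → StrongDual ℝ V := fun i => EuclideanSpace.proj i
  set O : Set (WeakSpace ℝ V) :=
    ⋂ i, {w | |c i ((toWeakSpace ℝ V).symm w)| < 1 / (2 * ((n : ℝ) + 1))} with hO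
  have hOopen : IsOpen O := by
    refine isOpen_iInter_of_finite fun i => ?_
    exact isOpen_lt (continuous_abs.comp (R270.WeakNhd.continuous_eval (c i))) continuous_const
  obtain ⟨f, α, hα, ⟨x, hxC, hx⟩, hsub⟩ :=
    h (Metric.closedBall (0 : V) 1 ∩ toWeakSpace ℝ V ⁻¹' O) ⟨O, hOopen, rfl⟩ (by
      refine ⟨by simp, ?_⟩
      simp only [hO, mem_preimage, mem_iInter, mem_ofPred_eq]
      intro i
      simp only [LinearEquiv.symm_apply_apply, map_zero, abs_zero]
      positivity)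
  -- a unit vector in the slice
  have hunit : ∃ e : V, ‖e‖ = 1 ∧ f x ≤ f e := by
    by_cases hx0 : x = 0
    · subst hx0
      obtain ⟨e, he⟩ := exists_norm_eq V (zero_le_one' ℝ)
      rcases le_total 0 (f e) with h0 | h0
      · exact ⟨e, he, by simpa using h0⟩
      · refine ⟨-e, by rw [norm_neg]; exact he, ?_⟩
        simpa using h0
    · have hxn : 0 < ‖x‖ := norm_pos_iff.2 hx0
      have hx1 : ‖x‖ ≤ 1 := by simpa using hxC
      have hinv : 1 ≤ ‖x‖⁻¹ := (one_le_inv₀ hxn).2 hx1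
      rcases le_total 0 (f x) with h0 | h0
      · refine ⟨‖x‖⁻¹ • x, ?_, ?_⟩
        · rw [norm_smul, norm_inv, norm_norm, inv_mul_cancel₀ hxn.ne']
        · rw [map_smul, smul_eq_mul]
          nlinarith
      · refine ⟨-(‖x‖⁻¹ • x), ?_, ?_⟩
        · rw [norm_neg, norm_smul, norm_inv, norm_norm, inv_mul_cancel₀ hxn.ne']
        · rw [map_neg, map_smul, smul_eq_mul]
          nlinarith
  obtain ⟨e, he, hfe⟩ := hunit
  have heC : e ∈ Metric.closedBall (0 : V) 1 := by simp [he]
  have heS : e ∈ slice (Metric.closedBall (0 : V) 1) f α := ⟨heC, lt_of_lt_of_le hx hfe⟩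
  have heO := (hsub heS).2
  simp only [hO, mem_preimage, mem_iInter, mem_ofPred_eq, LinearEquiv.symm_apply_apply] at heO
  have h1 : ‖e‖ ^ 2 < 1 := by
    rw [EuclideanSpace.norm_sq_eq]
    have hpos : (0 : ℝ) < (n : ℝ) + 1 := by positivity
    have hb : ∀ i, ‖e i‖ ^ 2 < 1 / ((n : ℝ) + 1) := by
      intro i
      have h2 : ‖e i‖ < 1 / (2 * ((n : ℝ) + 1)) := heO i
      have h3 : 1 / (2 * ((n : ℝ) + 1)) ≤ 1 / ((n : ℝ) + 1) := by
        apply one_div_le_one_div_of_le hpos; linarith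
      have h4 : 1 / ((n : ℝ) + 1) ≤ 1 := by
        rw [div_le_one hpos]; linarith [(Nat.cast_nonneg n : (0 : ℝ) ≤ n)]
      have h5 := norm_nonneg (e i)
      nlinarith
    calc ∑ i, ‖e i‖ ^ 2 < ∑ _i : Fin (n + 1), 1 / ((n : ℝ) + 1) :=
          Finset.sum_lt_sum_of_nonempty Finset.univ_nonempty fun i _ => hb i
      _ = 1 := by
          rw [Finset.sum_const, Finset.card_univ, Fintype.card_fin, nsmul_eq_mul]
          push_cast
          field_simp
  rw [he] at h1
  norm_num at h1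

end finite

section sum

variable {I : Type*} (d : I → ℕ)

/-- The summands. -/
abbrev E (i : I) : Type := EuclideanSpace ℝ (Fin (d i + 1))

/-- Zero is an almost preserved extreme point of the unit ball of the `ℓ₁`-sum, if the dimensions
are unbounded. -/
lemma isAPEP (hd : ∀ n : ℕ, ∃ i, n ≤ d i) :
    IsAPEP (Metric.closedBall (0 : lp (E d) 1) 1) 0 := by
  classical
  refine ⟨by simp, ?_⟩
  rintro W ⟨O, hO, rfl⟩ ⟨-, h0⟩
  obtain ⟨s, ε, hε, hs⟩ := R270.WeakNhd.exists_basic O hO 0 h0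
  obtain ⟨i, hi⟩ := hd s.card
  -- a unit vector in the kernel of all functionals of `s`
  obtain ⟨x, hx0, hxs⟩ : ∃ x : E d i, x ≠ 0 ∧ ∀ f ∈ s, f (lp.single 1 i x) = 0 := by
    let L : E d i →ₗ[ℝ] (s → ℝ) :=
      LinearMap.pi fun f => (f.1.comp (lp.singleContinuousLinearMap ℝ (E d) 1 i)).toLinearMap
    have hker : LinearMap.ker L ≠ ⊥ := by
      apply LinearMap.ker_ne_bot_of_finrank_lt
      simp only [Module.finrank_fintype_fun_eq_card, Fintype.card_coe, finrank_euclideanSpace,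
        Fintype.card_fin]
      omega
    obtain ⟨x, hx, hx0⟩ := (Submodule.ne_bot_iff _).1 hker
    refine ⟨x, hx0, fun f hf => ?_⟩
    have := congrFun (LinearMap.mem_ker.1 hx) ⟨f, hf⟩
    simpa [L] using this
  obtain ⟨e, he1, hes⟩ : ∃ e : E d i, ‖e‖ = 1 ∧ ∀ f ∈ s, f (lp.single 1 i e) = 0 := by
    have hxn : 0 < ‖x‖ := norm_pos_iff.2 hx0
    refine ⟨‖x‖⁻¹ • x, ?_, fun f hf => ?_⟩
    · rw [norm_smul, norm_inv, norm_norm, inv_mul_cancel₀ hxn.ne']
    · rw [lp.single_smul, map_smul, hxs f hf, smul_zero]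
  -- the functional
  let g : StrongDual ℝ (lp (E d) 1) := (innerSL ℝ e).comp (lp.evalCLM ℝ (E d) 1 i)
  have hg : ∀ z : lp (E d) 1, g z = inner ℝ e (z i) := fun z => rfl
  -- a common bound of the norms
  obtain ⟨M, hM0, hM⟩ : ∃ M : ℝ, 0 < M ∧ ∀ f ∈ s, ‖f‖ ≤ M := by
    refine ⟨∑ f ∈ s, ‖f‖ + 1, ?_, fun f hf => ?_⟩
    · have : 0 ≤ ∑ f ∈ s, ‖f‖ := Finset.sum_nonneg fun f _ => norm_nonneg f
      linarith
    · have := Finset.single_le_sum (f := fun f : StrongDual ℝ (lp (E d) 1) => ‖f‖)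
        (fun f _ => norm_nonneg f) hf
      linarith
  set δ : ℝ := min 1 (ε / (4 * M)) with hδ
  have hδ0 : 0 < δ := lt_min one_pos (by positivity)
  have hδ1 : δ ≤ 1 := min_le_left _ _
  have hδM : M * (2 * δ) ≤ ε / 2 := by
    have : δ ≤ ε / (4 * M) := min_le_right _ _
    rw [le_div_iff₀ (by positivity)] at this
    linarith
  set α : ℝ := δ ^ 2 / 2 with hα
  have hα0 : 0 < α := by positivity
  -- the point `e`
  have hge : g (lp.single 1 i e) = 1 := by
    rw [hg]
    simp [he1]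
  have hele : ‖lp.single (E := E d) 1 i e‖ = 1 := by
    rw [lp.norm_single one_pos]; exact he1
  have hsup : sSup (g '' Metric.closedBall (0 : lp (E d) 1) 1) = 1 := by
    have hub : ∀ r ∈ g '' Metric.closedBall (0 : lp (E d) 1) 1, r ≤ 1 := by
      rintro r ⟨z, hz, rfl⟩
      have hz1 : ‖z‖ ≤ 1 := by simpa using hz
      rw [hg]
      calc inner ℝ e (z i) ≤ ‖e‖ * ‖z i‖ := real_inner_le_norm _ _
        _ ≤ 1 * 1 := by
            rw [he1]
            gcongr
            exact (lp.norm_apply_le_norm one_ne_zero z i).trans hz1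
        _ = 1 := one_mul 1
    have hmem : (1 : ℝ) ∈ g '' Metric.closedBall (0 : lp (E d) 1) 1 :=
      ⟨_, by simp [hele], hge⟩
    exact le_antisymm (csSup_le ⟨_, hmem⟩ hub) (le_csSup ⟨1, hub⟩ hmem)
  refine ⟨g, α, hα0, ⟨lp.single 1 i e, by simp [hele], ?_⟩, ?_⟩
  · rw [hsup, hge]; linarith
  · rintro z ⟨hzC, hz⟩
    rw [hsup, hg] at hz
    have hz1 : ‖z‖ ≤ 1 := by simpa using hzC
    have hzi : ‖z i‖ ≤ 1 := (lp.norm_apply_le_norm one_ne_zero z i).trans hz1
    have hzi2 : 1 - α < ‖z i‖ := by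
      calc 1 - α < inner ℝ e (z i) := hz
        _ ≤ ‖e‖ * ‖z i‖ := real_inner_le_norm _ _
        _ = ‖z i‖ := by rw [he1, one_mul]
    refine ⟨hzC, hs z fun f hf => ?_⟩
    have hcompl : ‖z - lp.single 1 i (z i)‖ = ‖z‖ - ‖z i‖ := by
      have := lp.norm_compl_sum_single (E := E d) (p := 1) (by norm_num) z {i}
      simpa using this
    have hdist : ‖z i - e‖ ≤ δ := by
      have h1 : ‖z i - e‖ ^ 2 ≤ δ ^ 2 := by
        rw [@norm_sub_sq_real, he1, real_inner_comm]
        have : ‖z i‖ ^ 2 ≤ 1 := by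
          have := norm_nonneg (z i)
          nlinarith
        linarith
      exact (abs_le_of_sq_le_sq' h1 hδ0.le).2
    have hdist2 : ‖z - lp.single 1 i e‖ ≤ 2 * δ := by
      calc ‖z - lp.single 1 i e‖
          = ‖(z - lp.single 1 i (z i)) + lp.single 1 i (z i - e)‖ := by
            rw [lp.single_sub]; congr 1; abel
        _ ≤ ‖z - lp.single 1 i (z i)‖ + ‖lp.single (E := E d) 1 i (z i - e)‖ := norm_add_le _ _
        _ ≤ α + δ := by
            rw [hcompl, lp.norm_single one_pos]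
            linarith
        _ ≤ 2 * δ := by nlinarith
    have hfz : f (z - 0) = f (z - lp.single 1 i e) := by
      rw [sub_zero, map_sub, hes f hf, sub_zero]
    rw [hfz]
    calc ‖f (z - lp.single 1 i e)‖ ≤ ‖f‖ * ‖z - lp.single 1 i e‖ := f.le_opNorm _
      _ ≤ M * (2 * δ) := by
          gcongr
          exact hM f hf
      _ < ε := by linarith

end sum

/-- **Answer to Q1 (negative), for every infinite index set.** For every infinite set `I` there
are real Banach spaces `E i`, `i ∈ I` (nonzero finite-dimensional Hilbert spaces), such that `0` is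
an almost preserved extreme point of the unit ball of the `ℓ₁`-sum `lp E 1`, while for no `i` is `0`
an almost preserved extreme point of the unit ball of `E i`. -/
theorem result (I : Type*) [Infinite I] :
    ∃ (E : I → Type) (_ : ∀ i, NormedAddCommGroup (E i)) (_ : ∀ i, InnerProductSpace ℝ (E i)),
      (∀ i, FiniteDimensional ℝ (E i)) ∧ (∀ i, CompleteSpace (E i)) ∧ (∀ i, Nontrivial (E i)) ∧
      IsAPEP (Metric.closedBall (0 : lp E 1) 1) 0 ∧
      ∀ i, ¬ IsAPEP (Metric.closedBall (0 : E i) 1) 0 := by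
  classical
  obtain ⟨d, hd⟩ : ∃ d : I → ℕ, ∀ n : ℕ, ∃ i, n ≤ d i := by
    refine ⟨Function.invFun (Infinite.natEmbedding I), fun n => ⟨Infinite.natEmbedding I n, ?_⟩⟩
    rw [Function.leftInverse_invFun (Infinite.natEmbedding I).injective n]
  exact ⟨E d, inferInstance, inferInstance, fun i => inferInstance, fun i => inferInstance,
    fun i => inferInstance, isAPEP d hd, fun i => not_isAPEP (d i)⟩

end Pool.Agent.Results.MP_c12391_an.ZeroAPEP
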